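import Pool.Agent.L7h55.TN.Stm

/-! Project TN, parts SML and ODD. -/

set_option autoImplicit false

namespace Pool.Agent.L7h9.TN

open Polynomial Pool.Agent.L7h55.TN

theorem prod_small (s : Multiset ℂ) (h : ∀ w ∈ s, ‖w‖ < 1) : s = 0 ∨ ‖s.prod‖ < 1 := by
  induction s using Multiset.induction_on with
  | empty => exact Or.inl rfl
  | cons a s ih =>
    right
    have ha : ‖a‖ < 1 := h a (Multiset.mem_cons_self a s)
    rcases ih (fun w hw => h w (Multiset.mem_cons_of_mem hw)) with hs | hs
    · simpa [hs] using ha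
    · rw [Multiset.prod_cons, norm_mul]
      calc ‖a‖ * ‖s.prod‖ ≤ 1 * ‖s.prod‖ := by
            apply mul_le_mul_of_nonneg_right ha.le (norm_nonneg _)
        _ < 1 := by rw [one_mul]; exact hs

theorem s_SML : S_SML := by
  intro z hz hw
  set P := minpoly ℤ z with hP
  have hm : P.Monic := minpoly.monic hz
  set Q : ℂ[X] := P.map (algebraMap ℤ ℂ) with hQ
  have hQm : Q.Monic := hm.map _
  have hs : Q.Splits := IsAlgClosed.splits Q
  have hc := hs.coeff_zero_eq_prod_roots_of_monic hQm
  have hroots : ∀ w ∈ Q.roots, ‖w‖ < 1 := by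
    intro w hwr
    apply hw w
    have := (mem_roots'.mp hwr).2
    rwa [IsRoot.def, hQ, eval_map_algebraMap] at this
  have hdeg : Q.roots ≠ 0 := by
    intro h0
    have h1 : Q.natDegree = 0 := by
      rw [hs.natDegree_eq_card_roots, h0]
      rfl
    have h2 : 0 < Q.natDegree := by
      rw [hQ, hm.natDegree_map]
      exact minpoly.natDegree_pos hz
    omega
  have hn : ‖Q.roots.prod‖ < 1 := by
    rcases prod_small Q.roots hroots with h | h
    · exact absurd h hdeg
    · exact h
  have hc0 : P.coeff 0 = 0 := by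
    have h1 : ‖(P.coeff 0 : ℂ)‖ < 1 := by
      have h2 : Q.coeff 0 = (P.coeff 0 : ℂ) := by
        rw [hQ, coeff_map]
        simp
      rw [← h2, hc, norm_mul, norm_pow, norm_neg, norm_one, one_pow, one_mul]
      exact hn
    have h3 : |((P.coeff 0 : ℤ) : ℝ)| < 1 := by
      rwa [Complex.norm_intCast] at h1
    have h4 : |P.coeff 0| < 1 := by exact_mod_cast h3
    exact Int.abs_lt_one_iff.mp h4
  have hX : X ∣ P := X_dvd_iff.mpr hc0
  have hirr : Irreducible P := minpoly.irreducible hz
  have hass : P ∣ X := (irreducible_X.dvd_symm hirr hX)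
  have := aeval_eq_zero_of_dvd_aeval_eq_zero hass (minpoly.aeval ℤ z)
  simpa using this

theorem s_ODD (h : S_SML) : S_ODD := by
  intro M η g k hM hk hη hg hgM
  have hηg : η = M * g + 1 := by rw [← hgM]; ring
  have key : g = 0 := by
    apply h g hg
    intro w hw
    have hd : minpoly ℤ g ∣ ((C (M : ℤ) * X + 1) ^ k - 1 : ℤ[X]) := by
      apply minpoly.isIntegrallyClosed_dvd hg
      simp only [map_sub, map_pow, map_add, map_mul, aeval_X, map_one, aeval_C]
      simp only [algebraMap_int_eq, eq_intCast, Int.cast_natCast]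
      rw [← hηg, hη, sub_self]
    have h1 := aeval_eq_zero_of_dvd_aeval_eq_zero hd hw
    simp only [map_sub, map_pow, map_add, map_mul, aeval_X, map_one, aeval_C] at h1
    simp only [algebraMap_int_eq, eq_intCast, Int.cast_natCast] at h1
    have h2 : ((M : ℂ) * w + 1) ^ k = 1 := sub_eq_zero.mp h1
    have h3 : ‖(M : ℂ) * w + 1‖ = 1 := by
      have h4 : ‖(M : ℂ) * w + 1‖ ^ k = 1 := by rw [← norm_pow, h2, norm_one]
      exact (pow_eq_one_iff_of_nonneg (norm_nonneg _) hk.ne').mp h4
    have h5 : (M : ℝ) * ‖w‖ ≤ 2 := by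
      have h6 : (M : ℝ) * ‖w‖ = ‖((M : ℂ) * w + 1) - 1‖ := by
        rw [add_sub_cancel_right, norm_mul, Complex.norm_natCast]
      rw [h6]
      calc ‖((M : ℂ) * w + 1) - 1‖ ≤ ‖(M : ℂ) * w + 1‖ + ‖(1 : ℂ)‖ := norm_sub_le _ _
        _ = 2 := by rw [h3, norm_one]; norm_num
    have hM' : (3 : ℝ) ≤ M := by exact_mod_cast hM
    by_contra hcon
    push Not at hcon
    nlinarith [norm_nonneg w]
  rw [hηg, key, mul_zero, zero_add]

end Pool.Agent.L7h9.TN
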